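import Mathlib
import Pool.Agent.H.MP_6bb0fd_an.Op

set_option autoImplicit false

namespace Pool.Agent.Results.MP_f0d684_an.No

open Polynomial Real

/-- all complex zeros lie in the sector -/
def InSector (θ : ℝ) (f : ℝ[X]) : Prop := ∀ z : ℂ, aeval z f = 0 → |z.arg| ≤ θ ∨ z = 0

/-- zero-sector reducing operators -/
def Reducing (T : ℝ[X] →ₗ[ℝ] ℝ[X]) : Prop :=
  ∀ θ, 0 < θ → θ < π / 2 → ∃ γ, 0 ≤ γ ∧ γ < θ ∧ ∀ f, f ≠ 0 → InSector θ f → InSector γ (T f)

/-- the diagonal operator -/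
noncomputable def diag (γ : ℕ → ℝ) : ℝ[X] →ₗ[ℝ] ℝ[X] := lsum fun k => γ k • monomial k

theorem result : ∃ α p : ℝ, 0 < α ∧ 2 < p ∧
    ¬ Reducing (diag fun k => exp (-α * (k : ℝ) ^ p)) := by
  obtain ⟨q, q0, q1, hq⟩ : ∃ q : ℝ, 0 < q ∧ q < 1 ∧ q ^ 6 = 19 / 20 :=
    ⟨(19 / 20) ^ (6⁻¹ : ℝ), by positivity, rpow_lt_one (by norm_num) (by norm_num) (by norm_num),
      by exact_mod_cast rpow_inv_natCast_pow (n := 6) (by norm_num) (by norm_num)⟩
  refine ⟨-log q, 3, neg_pos.2 (log_neg q0 q1), by norm_num, fun h => ?_⟩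
  have g : ∀ k : ℕ, exp (- -log q * (k : ℝ) ^ (3 : ℝ)) = q ^ (k ^ 3) := fun k => by
    rw [neg_neg, show (k : ℝ) ^ (3 : ℝ) = (k ^ 3 : ℕ) by norm_cast, mul_comm, exp_nat_mul,
      exp_log q0]
  simp only [g] at h
  have e : diag (fun k => q ^ (k ^ 3)) ((X - C 1) ^ 3) =
      C (q ^ 27) * X ^ 3 - C (3 * q ^ 8) * X ^ 2 + C (3 * q) * X - C 1 := by
    have : ((X - C 1) ^ 3 : ℝ[X]) = monomial 3 1 - monomial 2 3 + monomial 1 3 - monomial 0 1 := by
      simp only [← C_mul_X_pow_eq_monomial, map_ofNat, map_one]; ring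
    have m : ∀ n a, diag (fun k => q ^ (k ^ 3)) (monomial n a) = C (a * q ^ (n ^ 3)) * X ^ n :=
      fun n a => by
        rw [diag, lsum_apply, sum_monomial_index _ _ (by simp), LinearMap.smul_apply,
          smul_monomial, C_mul_X_pow_eq_monomial, smul_eq_mul, mul_comm]
    rw [this, map_sub, map_add, map_sub, m, m, m, m]
    norm_num
  have := Pool.Agent.H.MP_6bb0fd_an.lag (f := diag (fun k => q ^ (k ^ 3)) ((X - C 1) ^ 3))
    (Splits.of_splits_map (algebraMap ℝ ℂ) (IsAlgClosed.splits _) fun z hz => by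
      have hz : aeval z (diag (fun k => q ^ (k ^ 3)) ((X - C 1) ^ 3)) = 0 := by
        simpa [aeval_def, eval_map] using (mem_roots'.1 hz).2
      by_contra c
      have a0 : z.arg ≠ 0 := fun d => c ⟨z.re, Complex.ext rfl (Complex.arg_eq_zero_iff.1 d).2.symm⟩
      obtain ⟨γ, -, g1, g2⟩ := h (min |z.arg| 1) (lt_min (abs_pos.2 a0) one_pos)
        ((min_le_right _ _).trans_lt (by linarith [pi_gt_three]))
      rcases g2 _ (pow_ne_zero 3 (X_sub_C_ne_zero 1)) (fun w hw => Or.inl (by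
        have : w = 1 := by simpa [sub_eq_zero] using hw
        simp [this]) ) z hz with d | d
      · linarith [min_le_left |z.arg| 1]
      · exact a0 (by simp [d])) (4 / 5 / q)
  rw [e, show q ^ 27 = (q ^ 6) ^ 4 * q ^ 3 by ring, show q ^ 8 = q ^ 6 * q ^ 2 by ring, hq] at this
  simp [-map_mul, -map_pow] at this
  field_simp at this
  norm_num at this

end Pool.Agent.Results.MP_f0d684_an.No
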